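import Pool.Agent.L5helper75.EB.Super

/-!
# Classes with bounded blocks
-/

set_option autoImplicit false

open SimpleGraph

namespace Pool.Agent.L5helper75.EB

/-- At least three vertices, and connected after the deletion of any vertex. -/
def TwoConnected {V : Type} (G : SimpleGraph V) : Prop :=
  3 ≤ Nat.card V ∧ ∀ u, (G.induce {u}ᶜ).Connected

/-- Splitting along a partition of the edges. -/
theorem ne_split {V : Type} [Finite V] (G : SimpleGraph V) (X Y : Set V)
    (hXY : ∀ x y, G.Adj x y → (x ∈ X ∧ y ∈ X) ∨ (x ∈ Y ∧ y ∈ Y))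
    (hs : ∀ x y, x ∈ X → x ∈ Y → y ∈ X → y ∈ Y → x = y) :
    ne G = ne (G.induce X) + ne (G.induce Y) := by
  have e : G = glue (G.induce X) (G.induce Y) Subtype.val Subtype.val Subtype.val_injective
      Subtype.val_injective := by
    ext a b
    constructor
    · intro h
      rcases hXY a b h with ⟨h1, h2⟩ | ⟨h1, h2⟩
      · exact Or.inl ⟨⟨a, h1⟩, ⟨b, h2⟩, rfl, rfl, h⟩
      · exact Or.inr ⟨⟨a, h1⟩, ⟨b, h2⟩, rfl, rfl, h⟩
    · rintro (⟨u, v, rfl, rfl, h⟩ | ⟨u, v, rfl, rfl, h⟩)
      · exact h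
      · exact h
  conv_lhs => rw [e]
  apply ne_glue
  intro u v u' v' huv _ h h'
  exact huv.ne (Subtype.ext (hs u.1 v.1 u.2 (h ▸ u'.2) v.2 (h' ▸ v'.2)))

/-- A set which is closed up to the vertex `u` spans a connected graph together with `u`. -/
theorem connected_closed {V : Type} {G : SimpleGraph V} (hG : G.Connected) {S : Set V} {u : V}
    (hS : ∀ x ∈ S, ∀ y, G.Adj x y → y = u ∨ y ∈ S) : (G.induce (insert u S)).Connected := by
  have key : ∀ x y : V, G.Walk x y → y = u → ∀ hx : x ∈ S,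
      (G.induce (insert u S)).Reachable ⟨x, Set.mem_insert_of_mem _ hx⟩ ⟨u, Set.mem_insert _ _⟩ := by
    intro x y p
    induction p with
    | nil => intro hy hx; subst hy; rfl
    | @cons x z y h p ih =>
      intro hy hx
      rcases hS x hx z h with rfl | hz
      · exact Adj.reachable h
      · have h1 : (G.induce (insert u S)).Adj ⟨x, Set.mem_insert_of_mem _ hx⟩
          ⟨z, Set.mem_insert_of_mem _ hz⟩ := h
        exact h1.reachable.trans (ih hy hz)
  have all : ∀ a : (insert u S : Set V),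
      (G.induce (insert u S)).Reachable a ⟨u, Set.mem_insert _ _⟩ := by
    rintro ⟨x, hx | hx⟩
    · subst hx; rfl
    · obtain ⟨p⟩ := hG.preconnected x u
      exact key x u p rfl hx
  haveI : Nonempty (insert u S : Set V) := ⟨⟨u, Set.mem_insert _ _⟩⟩
  exact ⟨fun a b => (all a).trans (all b).symm⟩

/-- A graph which is not connected splits. -/
theorem split_of_not_connected {V : Type} [Nonempty V] (G : SimpleGraph V) (h : ¬ G.Connected) :
    ∃ S : Set V, S.Nonempty ∧ Sᶜ.Nonempty ∧ ∀ x y, G.Adj x y → (x ∈ S ↔ y ∈ S) := by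
  have h1 : ¬ G.Preconnected := fun h' => h ⟨h'⟩
  unfold Preconnected at h1
  push Not at h1
  obtain ⟨x, y, hxy⟩ := h1
  refine ⟨{v | G.Reachable x v}, ⟨x, Reachable.refl _⟩, ⟨y, hxy⟩, fun a b hab => ?_⟩
  exact ⟨fun h => Reachable.trans h hab.reachable, fun h => Reachable.trans h hab.symm.reachable⟩

theorem card_lt {V : Type} [Finite V] {X : Set V} {v : V} (h : v ∉ X) :
    Nat.card X < Nat.card V := by
  have h1 : X.ncard < (Set.univ : Set V).ncard :=
    Set.ncard_lt_ncard ⟨Set.subset_univ _, fun h' => h (h' (Set.mem_univ v))⟩ (Set.toFinite _)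
  rwa [Set.ncard_univ] at h1

/-- A large connected graph which is not 2-connected is glued at a vertex. -/
theorem split_of_not_twoConnected {V : Type} [Finite V] {G : SimpleGraph V} (hG : G.Connected)
    (hV : 3 ≤ Nat.card V) (h : ¬ TwoConnected G) :
    ∃ (X Y : Set V) (u : V), X ∩ Y = {u} ∧ (G.induce X).Connected ∧ (G.induce Y).Connected ∧
      Nat.card X < Nat.card V ∧ Nat.card Y < Nat.card V ∧ Nat.card X + Nat.card Y = Nat.card V + 1 ∧
      ne G = ne (G.induce X) + ne (G.induce Y) := by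
  classical
  unfold TwoConnected at h
  push Not at h
  obtain ⟨u, hu⟩ := h hV
  have hne : Nonempty ({u}ᶜ : Set V) := by
    by_contra hcon
    rw [not_nonempty_iff] at hcon
    have h1 : ∀ v : V, v = u := fun v => by
      by_contra hv
      exact hcon.elim ⟨v, hv⟩
    have h2 : Nat.card V ≤ 1 := by
      haveI : Subsingleton V := ⟨fun a b => (h1 a).trans (h1 b).symm⟩
      exact Finite.card_le_one_iff_subsingleton.2 inferInstance
    omega
  obtain ⟨S, ⟨a, ha⟩, ⟨b, hb⟩, hS⟩ := split_of_not_connected _ hu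
  -- the two parts
  let S₁ : Set V := Subtype.val '' S
  let S₂ : Set V := Subtype.val '' Sᶜ
  have hS₁u : u ∉ S₁ := by rintro ⟨x, _, hx⟩; exact x.2 hx
  have hS₂u : u ∉ S₂ := by rintro ⟨x, _, hx⟩; exact x.2 hx
  have hcl₁ : ∀ x ∈ S₁, ∀ y, G.Adj x y → y = u ∨ y ∈ S₁ := by
    rintro _ ⟨x, hx, rfl⟩ y hxy
    by_cases hy : y = u
    · exact Or.inl hy
    · exact Or.inr ⟨⟨y, hy⟩, (hS x ⟨y, hy⟩ hxy).1 hx, rfl⟩
  have hcl₂ : ∀ x ∈ S₂, ∀ y, G.Adj x y → y = u ∨ y ∈ S₂ := by
    rintro _ ⟨x, hx, rfl⟩ y hxy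
    by_cases hy : y = u
    · exact Or.inl hy
    · exact Or.inr ⟨⟨y, hy⟩, fun h' => hx ((hS x ⟨y, hy⟩ hxy).2 h'), rfl⟩
  have hdis : ∀ t, t ∈ S₁ → t ∈ S₂ → False := by
    rintro _ ⟨x, hx, rfl⟩ ⟨y, hy, hxy⟩
    have : y = x := Subtype.ext hxy
    subst this
    exact hy hx
  have hcov : ∀ t, t ≠ u → t ∈ S₁ ∨ t ∈ S₂ := by
    intro t ht
    by_cases h : (⟨t, ht⟩ : ({u}ᶜ : Set V)) ∈ S
    · exact Or.inl ⟨_, h, rfl⟩
    · exact Or.inr ⟨_, h, rfl⟩
  have hbX : b.1 ∉ insert u S₁ := by
    rintro (h | h)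
    · exact b.2 h
    · exact hdis _ h ⟨b, hb, rfl⟩
  have haY : a.1 ∉ insert u S₂ := by
    rintro (h | h)
    · exact a.2 h
    · exact hdis _ ⟨a, ha, rfl⟩ h
  have hI : insert u S₁ ∩ insert u S₂ = {u} := by
    ext t
    constructor
    · rintro ⟨h1 | h1, h2 | h2⟩
      · exact h1
      · exact h1
      · exact h2
      · exact (hdis t h1 h2).elim
    · intro h
      have : t = u := h
      subst this
      exact ⟨Set.mem_insert _ _, Set.mem_insert _ _⟩
  have hU : insert u S₁ ∪ insert u S₂ = Set.univ := by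
    ext t
    simp only [Set.mem_univ, iff_true]
    by_cases ht : t = u
    · exact Or.inl (Or.inl ht)
    · rcases hcov t ht with h | h
      · exact Or.inl (Or.inr h)
      · exact Or.inr (Or.inr h)
  refine ⟨insert u S₁, insert u S₂, u, hI, connected_closed hG hcl₁, connected_closed hG hcl₂,
    card_lt hbX, card_lt haY, ?_, ?_⟩
  · have h1 := Set.ncard_union_add_ncard_inter (insert u S₁) (insert u S₂) (Set.toFinite _)
      (Set.toFinite _)
    rw [hU, hI, Set.ncard_univ, Set.ncard_singleton] at h1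
    exact h1.symm
  · apply ne_split
    · intro x y hxy
      by_cases hx : x = u
      · subst hx
        by_cases hy : y = x
        · exact absurd hy hxy.ne.symm
        · rcases hcov y hy with h | h
          · exact Or.inl ⟨Set.mem_insert _ _, Or.inr h⟩
          · exact Or.inr ⟨Set.mem_insert _ _, Or.inr h⟩
      · rcases hcov x hx with h | h
        · refine Or.inl ⟨Or.inr h, ?_⟩
          rcases hcl₁ x h y hxy with h' | h'
          · exact Or.inl h'
          · exact Or.inr h'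
        · refine Or.inr ⟨Or.inr h, ?_⟩
          rcases hcl₂ x h y hxy with h' | h'
          · exact Or.inl h'
          · exact Or.inr h'
    · intro x y hx hx' hy hy'
      have h1 : x ∈ ({u} : Set V) := hI ▸ ⟨hx, hx'⟩
      have h2 : y ∈ ({u} : Set V) := hI ▸ ⟨hy, hy'⟩
      exact (show x = u from h1).trans (show y = u from h2).symm

end Pool.Agent.L5helper75.EB
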