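import Pool.Agent.L5helper75.EB.Glue

/-!
# The bound for the minors of a union of two graphs with two common vertices
-/

set_option autoImplicit false

open SimpleGraph

namespace Pool.Agent.L5helper75.EB

/-- The number of edges. -/
noncomputable def ne {V : Type} (G : SimpleGraph V) : ℕ := G.edgeSet.ncard

section sum

variable {W V₁ V₂ U : Type} [Finite W] [Finite V₁] [Finite V₂] [Finite U] {M : SimpleGraph W}
  {P₁ : SimpleGraph V₁} {P₂ : SimpleGraph V₂} {ι₁ : V₁ → U} {ι₂ : V₂ → U} {G : SimpleGraph U}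
  {B : W → Set U}

instance instFiniteCmp {W V : Type} [Finite W] [Finite V] (P : SimpleGraph V) (B : W → Set V) :
    Finite (Cmp P B) := by unfold Cmp; infer_instance

/-- `e(M) ≤ e(N₁) + e(N₂)`. -/
theorem edges_le (hG : IsUnion G P₁ P₂ ι₁ ι₂)
    (hM : ∀ w w', M.Adj w w' → ∃ x ∈ B w, ∃ y ∈ B w', G.Adj x y) :
    ne M ≤ ne (compGraph M P₁ fun w => ι₁ ⁻¹' B w) + ne (compGraph M P₂ fun w => ι₂ ⁻¹' B w) := by
  have hsub : M.edgeSet ⊆
      Sym2.map Sigma.fst '' (compGraph M P₁ fun w => ι₁ ⁻¹' B w).edgeSet ∪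
      Sym2.map Sigma.fst '' (compGraph M P₂ fun w => ι₂ ⁻¹' B w).edgeSet := by
    intro e he
    induction e using Sym2.ind with
    | _ w w' =>
      have hww := (SimpleGraph.mem_edgeSet _).1 he
      obtain ⟨x, hx, y, hy, hxy⟩ := hM w w' hww
      rcases hG.2 x y hxy with ⟨u, v, rfl, rfl, huv⟩ | ⟨u, v, rfl, rfl, huv⟩
      · left
        exact ⟨s(⟨w, (P₁.induce (ι₁ ⁻¹' B w)).connectedComponentMk ⟨u, hx⟩⟩,
          ⟨w', (P₁.induce (ι₁ ⁻¹' B w')).connectedComponentMk ⟨v, hy⟩⟩),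
          (SimpleGraph.mem_edgeSet _).2 ⟨hww, ⟨u, hx⟩, ⟨v, hy⟩, rfl, rfl, huv⟩, rfl⟩
      · right
        exact ⟨s(⟨w, (P₂.induce (ι₂ ⁻¹' B w)).connectedComponentMk ⟨u, hx⟩⟩,
          ⟨w', (P₂.induce (ι₂ ⁻¹' B w')).connectedComponentMk ⟨v, hy⟩⟩),
          (SimpleGraph.mem_edgeSet _).2 ⟨hww, ⟨u, hx⟩, ⟨v, hy⟩, rfl, rfl, huv⟩, rfl⟩
  calc ne M ≤ _ := Set.ncard_le_ncard hsub (Set.toFinite _)
    _ ≤ _ := Set.ncard_union_le _ _
    _ ≤ _ := add_le_add (Set.ncard_image_le (Set.toFinite _)) (Set.ncard_image_le (Set.toFinite _))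

/-- `v(N₁) + v(N₂) ≤ v(M) + #{common vertices in the branch sets}`. -/
theorem verts_le (h₁ : Function.Injective ι₁) (h₂ : Function.Injective ι₂)
    (hG : IsUnion G P₁ P₂ ι₁ ι₂) (hB : ∀ w, (G.induce (B w)).Connected)
    (hd : ∀ w w', w ≠ w' → Disjoint (B w) (B w')) :
    Nat.card (Cmp P₁ fun w => ι₁ ⁻¹' B w) + Nat.card (Cmp P₂ fun w => ι₂ ⁻¹' B w) ≤
      Nat.card W + ((⋃ w, B w) ∩ (Set.range ι₁ ∩ Set.range ι₂)).ncard := by
  classical
  haveI := Fintype.ofFinite W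
  have c1 : Nat.card (Cmp P₁ fun w => ι₁ ⁻¹' B w) =
      ∑ w, Nat.card (P₁.induce (ι₁ ⁻¹' B w)).ConnectedComponent := Nat.card_sigma
  have c2 : Nat.card (Cmp P₂ fun w => ι₂ ⁻¹' B w) =
      ∑ w, Nat.card (P₂.induce (ι₂ ⁻¹' B w)).ConnectedComponent := Nat.card_sigma
  have c3 : ((⋃ w, B w) ∩ (Set.range ι₁ ∩ Set.range ι₂)).ncard =
      ∑ w, (B w ∩ (Set.range ι₁ ∩ Set.range ι₂)).ncard := by
    rw [Set.iUnion_inter]
    have := Set.ncard_iUnion_of_finite (s := fun w => B w ∩ (Set.range ι₁ ∩ Set.range ι₂))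
      (fun w => Set.toFinite _) (fun w w' hw =>
        Set.disjoint_of_subset Set.inter_subset_left Set.inter_subset_left (hd w w' hw))
    rw [this, finsum_eq_sum_of_fintype]
  rw [c1, c2, c3, ← Finset.sum_add_distrib, Nat.card_eq_fintype_card, ← Finset.card_univ,
    Finset.card_eq_sum_ones, ← Finset.sum_add_distrib]
  exact Finset.sum_le_sum fun w _ => card_comp h₁ h₂ hG (hB w)

/-- If the minors of `P₁` and `P₂` have at most `β (v - 1)` edges and the two graphs have at most two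
common vertices, then the minors of the union have at most `β v` edges. -/
theorem bound {β : ℝ} (hβ : 0 ≤ β) (h₁ : Function.Injective ι₁) (h₂ : Function.Injective ι₂)
    (hG : IsUnion G P₁ P₂ ι₁ ι₂) (hS : (Set.range ι₁ ∩ Set.range ι₂).ncard ≤ 2)
    (hP₁ : ∀ (X : Type) [Finite X] [Nonempty X] (Q : SimpleGraph X), IsMinor Q P₁ →
      (ne Q : ℝ) ≤ β * (Nat.card X - 1))
    (hP₂ : ∀ (X : Type) [Finite X] [Nonempty X] (Q : SimpleGraph X), IsMinor Q P₂ →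
      (ne Q : ℝ) ≤ β * (Nat.card X - 1))
    (hM : IsMinor M G) : (ne M : ℝ) ≤ β * Nat.card W := by
  classical
  obtain ⟨B, hB, hd, hadj⟩ := hM
  have he := edges_le (M := M) (B := B) hG hadj
  have hv := verts_le h₁ h₂ hG hB hd
  have hd₁ : ∀ w w', w ≠ w' → Disjoint (ι₁ ⁻¹' B w) (ι₁ ⁻¹' B w') :=
    fun w w' h => Disjoint.preimage _ (hd w w' h)
  have hd₂ : ∀ w w', w ≠ w' → Disjoint (ι₂ ⁻¹' B w) (ι₂ ⁻¹' B w') :=
    fun w w' h => Disjoint.preimage _ (hd w w' h)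
  have m₁ := compGraph_isMinor M P₁ (fun w => ι₁ ⁻¹' B w) hd₁
  have m₂ := compGraph_isMinor M P₂ (fun w => ι₂ ⁻¹' B w) hd₂
  set N₁ := compGraph M P₁ fun w => ι₁ ⁻¹' B w with hN₁
  set N₂ := compGraph M P₂ fun w => ι₂ ⁻¹' B w with hN₂
  have he' : (ne M : ℝ) ≤ ne N₁ + ne N₂ := by exact_mod_cast he
  -- bounds valid without nonemptiness
  have b₁ : (ne N₁ : ℝ) ≤ β * Nat.card (Cmp P₁ fun w => ι₁ ⁻¹' B w) := by
    rcases isEmpty_or_nonempty (Cmp P₁ fun w => ι₁ ⁻¹' B w) with hE | hE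
    · have : ne N₁ = 0 := by
        unfold ne
        rw [Set.ncard_eq_zero (Set.toFinite _)]
        ext e
        induction e using Sym2.ind with
        | _ x y => exact hE.elim x
      rw [this]
      simp
    · have := hP₁ _ N₁ m₁
      nlinarith
  have b₂ : (ne N₂ : ℝ) ≤ β * Nat.card (Cmp P₂ fun w => ι₂ ⁻¹' B w) := by
    rcases isEmpty_or_nonempty (Cmp P₂ fun w => ι₂ ⁻¹' B w) with hE | hE
    · have : ne N₂ = 0 := by
        unfold ne
        rw [Set.ncard_eq_zero (Set.toFinite _)]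
        ext e
        induction e using Sym2.ind with
        | _ x y => exact hE.elim x
      rw [this]
      simp
    · have := hP₂ _ N₂ m₂
      nlinarith
  by_cases h0 : ((⋃ w, B w) ∩ (Set.range ι₁ ∩ Set.range ι₂)) = ∅
  · rw [h0, Set.ncard_empty, add_zero] at hv
    have hv' : (Nat.card (Cmp P₁ fun w => ι₁ ⁻¹' B w) : ℝ) +
        Nat.card (Cmp P₂ fun w => ι₂ ⁻¹' B w) ≤ Nat.card W := by exact_mod_cast hv
    calc (ne M : ℝ) ≤ ne N₁ + ne N₂ := he'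
      _ ≤ β * ((Nat.card (Cmp P₁ fun w => ι₁ ⁻¹' B w) : ℝ) +
        Nat.card (Cmp P₂ fun w => ι₂ ⁻¹' B w)) := by rw [mul_add]; exact add_le_add b₁ b₂
      _ ≤ _ := mul_le_mul_of_nonneg_left hv' hβ
  · obtain ⟨x, hx⟩ := Set.nonempty_iff_ne_empty.2 h0
    obtain ⟨hxU, ⟨u, hu⟩, ⟨v, hv'⟩⟩ := hx
    obtain ⟨w, hw⟩ := Set.mem_iUnion.1 hxU
    have n₁ : Nonempty (Cmp P₁ fun w => ι₁ ⁻¹' B w) :=
      ⟨⟨w, (P₁.induce (ι₁ ⁻¹' B w)).connectedComponentMk ⟨u, by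
        show ι₁ u ∈ B w
        rw [hu]; exact hw⟩⟩⟩
    have n₂ : Nonempty (Cmp P₂ fun w => ι₂ ⁻¹' B w) :=
      ⟨⟨w, (P₂.induce (ι₂ ⁻¹' B w)).connectedComponentMk ⟨v, by
        show ι₂ v ∈ B w
        rw [hv']; exact hw⟩⟩⟩
    have k₁ := hP₁ _ N₁ m₁
    have k₂ := hP₂ _ N₂ m₂
    have hle : ((⋃ w, B w) ∩ (Set.range ι₁ ∩ Set.range ι₂)).ncard ≤ 2 :=
      (Set.ncard_le_ncard Set.inter_subset_right (Set.toFinite _)).trans hS
    have hv'' : Nat.card (Cmp P₁ fun w => ι₁ ⁻¹' B w) + Nat.card (Cmp P₂ fun w => ι₂ ⁻¹' B w) ≤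
        Nat.card W + 2 := by omega
    have hv3 : (Nat.card (Cmp P₁ fun w => ι₁ ⁻¹' B w) : ℝ) +
        Nat.card (Cmp P₂ fun w => ι₂ ⁻¹' B w) ≤ Nat.card W + 2 := by exact_mod_cast hv''
    nlinarith

end sum

end Pool.Agent.L5helper75.EB
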