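import Mathlib

/-!
# Minors of a union of two graphs with few common vertices

Let `P₁`, `P₂` be graphs with embeddings `ι₁`, `ι₂` into a set `U`, and let `G` be the union of their
images.  A minor `M` of `G` with branch sets `B w` is decomposed: the connected components of
`ι₁⁻¹ (B w)` and of `ι₂⁻¹ (B w)` are the branch sets of minors `N₁` of `P₁` and `N₂` of `P₂` with
`e(M) ≤ e(N₁) + e(N₂)` and `v(N₁) + v(N₂) ≤ v(M) + #{common vertices in the branch sets}`.
-/

set_option autoImplicit false

open SimpleGraph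

namespace Pool.Agent.L5helper75.EB

/-- `M` is a minor of `G`. -/
def IsMinor {W V : Type} (M : SimpleGraph W) (G : SimpleGraph V) : Prop :=
  ∃ B : W → Set V, (∀ w, (G.induce (B w)).Connected) ∧ (∀ w w', w ≠ w' → Disjoint (B w) (B w')) ∧
    ∀ w w', M.Adj w w' → ∃ x ∈ B w, ∃ y ∈ B w', G.Adj x y

section comp

variable {W V : Type} (M : SimpleGraph W) (P : SimpleGraph V) (B : W → Set V)

/-- The components of the sets `B w`. -/
abbrev Cmp : Type := Σ w : W, (P.induce (B w)).ConnectedComponent

/-- The minor of `P` formed by the components of the sets `B w`. -/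
def compGraph : SimpleGraph (Cmp P B) where
  Adj a b := M.Adj a.1 b.1 ∧ ∃ (x : B a.1) (y : B b.1),
    (P.induce (B a.1)).connectedComponentMk x = a.2 ∧
    (P.induce (B b.1)).connectedComponentMk y = b.2 ∧ P.Adj x y
  symm := ⟨fun a b h => ⟨h.1.symm, by
    obtain ⟨x, y, hx, hy, h'⟩ := h.2
    exact ⟨y, x, hy, hx, h'.symm⟩⟩⟩
  loopless := ⟨fun a h => M.loopless.irrefl _ h.1⟩

theorem compGraph_isMinor (hd : ∀ w w', w ≠ w' → Disjoint (B w) (B w')) :
    IsMinor (compGraph M P B) P := by
  refine ⟨fun a => Subtype.val '' (a.2.supp), ?_, ?_, ?_⟩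
  · intro a
    have hc := a.2.connected_toSimpleGraph
    let f : a.2.toSimpleGraph →g P.induce (Subtype.val '' a.2.supp) :=
      ⟨fun v => ⟨v.1.1, v.1, v.2, rfl⟩, fun {u v} h => h⟩
    have hf : Function.Surjective f := by
      rintro ⟨_, x, hx, rfl⟩
      exact ⟨⟨x, hx⟩, rfl⟩
    exact hc.map f hf
  · rintro ⟨w, C⟩ ⟨w', C'⟩ h
    rw [Set.disjoint_left]
    rintro _ ⟨x, hx, rfl⟩ ⟨y, hy, hxy⟩
    by_cases hw : w = w'
    · subst hw
      have : x = y := Subtype.ext hxy.symm
      subst this
      apply h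
      have h1 : (P.induce (B w)).connectedComponentMk x = C :=
        (SimpleGraph.ConnectedComponent.mem_supp_iff _ _).1 hx
      have h2 : (P.induce (B w)).connectedComponentMk x = C' :=
        (SimpleGraph.ConnectedComponent.mem_supp_iff _ _).1 hy
      rw [← h1, ← h2]
    · have := Set.disjoint_left.1 (hd w w' hw) x.2
      apply this
      rw [← hxy]
      exact y.2
  · rintro a b ⟨-, x, y, hx, hy, h⟩
    exact ⟨x, ⟨x, hx, rfl⟩, y, ⟨y, hy, rfl⟩, h⟩

end comp

end Pool.Agent.L5helper75.EB
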