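import Pool.Agent.L5helper75.EB.One

/-!
# `A + 1 ⊆ A`
-/

set_option autoImplicit false

open SimpleGraph

namespace Pool.Agent.L5helper75.EB

/-- The cone over `G`: one more vertex, adjacent to all others. -/
def cone {V : Type} (G : SimpleGraph V) : SimpleGraph (Option V) where
  Adj a b := a ≠ b ∧ ∀ u v, a = some u → b = some v → G.Adj u v
  symm := ⟨fun a b h => ⟨h.1.symm, fun u v hu hv => (h.2 v u hv hu).symm⟩⟩
  loopless := ⟨fun a h => h.1 rfl⟩

/-- Deleting a vertex. -/
theorem ne_le_del {W : Type} [Finite W] [Nonempty W] (M : SimpleGraph W) (b : W) :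
    (ne M : ℝ) ≤ ne (M.comap (Subtype.val : {w : W // w ≠ b} → W)) + (Nat.card W - 1) := by
  classical
  haveI := Fintype.ofFinite W
  have hsub : M.edgeSet ⊆
      Sym2.map Subtype.val '' (M.comap (Subtype.val : {w : W // w ≠ b} → W)).edgeSet ∪
      (fun w => s(b, w)) '' {w | w ≠ b} := by
    intro e he
    induction e using Sym2.ind with
    | _ x y =>
      have hxy := (SimpleGraph.mem_edgeSet _).1 he
      by_cases hx : x = b
      · right
        subst hx
        exact ⟨y, hxy.ne.symm, rfl⟩
      · by_cases hy : y = b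
        · right
          subst hy
          exact ⟨x, hx, Sym2.eq_swap⟩
        · left
          exact ⟨s(⟨x, hx⟩, ⟨y, hy⟩), hxy, rfl⟩
  have h1 : ne M ≤ ne (M.comap (Subtype.val : {w : W // w ≠ b} → W)) + (Nat.card W - 1) := by
    calc ne M ≤ _ := Set.ncard_le_ncard hsub (Set.toFinite _)
      _ ≤ _ := Set.ncard_union_le _ _
      _ ≤ _ := add_le_add (Set.ncard_image_le (Set.toFinite _)) (Set.ncard_image_le (Set.toFinite _))
      _ = _ := by
        congr 1
        have : {w : W | w ≠ b} = Set.univ \ {b} := by ext w; simp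
        rw [this, Set.ncard_sdiff_singleton_of_mem (Set.mem_univ b), Set.ncard_univ]
  have h2 : 1 ≤ Nat.card W := Nat.card_pos
  have h3 : (ne M : ℝ) ≤ (ne (M.comap (Subtype.val : {w : W // w ≠ b} → W)) +
      (Nat.card W - 1) : ℕ) := by exact_mod_cast h1
  rw [Nat.cast_add, Nat.cast_sub h2, Nat.cast_one] at h3
  exact h3

theorem card_del {W : Type} [Finite W] (b : W) :
    Nat.card {w : W // w ≠ b} + 1 = Nat.card W := by
  classical
  haveI := Fintype.ofFinite W
  have h : (Finset.univ.filter fun w : W => w ≠ b) = Finset.univ.erase b := by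
    ext w
    simp
  rw [Nat.card_eq_fintype_card, Nat.card_eq_fintype_card, Fintype.card_subtype, h,
    Finset.card_erase_of_mem (Finset.mem_univ b), Finset.card_univ]
  have : 0 < Fintype.card W := Fintype.card_pos_iff.2 ⟨b⟩
  omega

theorem ne_cone {V : Type} [Finite V] (G : SimpleGraph V) : ne (cone G) = ne G + Nat.card V := by
  classical
  have he : (cone G).edgeSet = Sym2.map some '' G.edgeSet ∪ (fun v => s(none, some v)) '' Set.univ := by
    ext e
    induction e using Sym2.ind with
    | _ a b =>
      constructor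
      · intro h
        have h' := (SimpleGraph.mem_edgeSet _).1 h
        rcases a with _ | u <;> rcases b with _ | v
        · exact absurd rfl h'.1
        · exact Or.inr ⟨v, trivial, rfl⟩
        · exact Or.inr ⟨u, trivial, Sym2.eq_swap⟩
        · exact Or.inl ⟨s(u, v), h'.2 u v rfl rfl, rfl⟩
      · rintro (⟨e, he, hab⟩ | ⟨v, -, hab⟩)
        · induction e using Sym2.ind with
          | _ u v =>
            rw [Sym2.map_mk] at hab
            rw [← hab, SimpleGraph.mem_edgeSet]
            refine ⟨fun h => (SimpleGraph.Adj.ne he) (Option.some_injective _ h), ?_⟩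
            intro u' v' hu hv
            rw [← Option.some_injective _ hu, ← Option.some_injective _ hv]
            exact he
        · rw [← hab, SimpleGraph.mem_edgeSet]
          exact ⟨by simp, fun u' v' hu => by simp at hu⟩
  have hdis : Disjoint (Sym2.map some '' G.edgeSet) ((fun v : V => s(none, some v)) '' Set.univ) := by
    rw [Set.disjoint_left]
    rintro _ ⟨e, he, rfl⟩ ⟨v, -, h⟩
    induction e using Sym2.ind with
    | _ a b =>
      rw [Sym2.map_mk] at h
      rcases Sym2.eq_iff.1 h with ⟨h3, _⟩ | ⟨h3, _⟩ <;> simp at h3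
  unfold ne
  rw [he, Set.ncard_union_eq hdis (Set.toFinite _) (Set.toFinite _),
    Set.ncard_image_of_injective _ (Sym2.map.injective (Option.some_injective _)),
    Set.ncard_image_of_injective, Set.ncard_univ]
  intro u v huv
  rcases Sym2.eq_iff.1 huv with ⟨_, h4⟩ | ⟨h3, _⟩
  · exact Option.some_injective _ h4
  · simp at h3

/-- A connected set of vertices of the cone without the apex. -/
theorem isMinor_of_cone {W V : Type} {M : SimpleGraph W} {G : SimpleGraph V} {B : W → Set (Option V)}
    (hB : ∀ w, ((cone G).induce (B w)).Connected) (hd : ∀ w w', w ≠ w' → Disjoint (B w) (B w'))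
    (hadj : ∀ w w', M.Adj w w' → ∃ x ∈ B w, ∃ y ∈ B w', (cone G).Adj x y)
    (hn : ∀ w, none ∉ B w) : IsMinor M G := by
  refine ⟨fun w => some ⁻¹' B w, fun w => ?_, fun w w' h => Disjoint.preimage _ (hd w w' h), ?_⟩
  · have hsome : ∀ x : B w, ∃ v : V, x.1 = some v := by
      rintro ⟨x, hx⟩
      rcases x with _ | v
      · exact absurd hx (hn w)
      · exact ⟨v, rfl⟩
    choose g hg using hsome
    let f : (cone G).induce (B w) →g G.induce (some ⁻¹' B w) :=
      ⟨fun x => ⟨g x, by show some (g x) ∈ B w; rw [← hg x]; exact x.2⟩, fun {x y} h => by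
        show G.Adj (g x) (g y)
        exact h.2 _ _ (hg x) (hg y)⟩
    have hf : Function.Surjective f := by
      rintro ⟨v, hv⟩
      refine ⟨⟨some v, hv⟩, Subtype.ext ?_⟩
      exact (Option.some_injective _ (hg ⟨some v, hv⟩)).symm
    exact (hB w).map f hf
  · intro w w' h
    obtain ⟨x, hx, y, hy, hxy⟩ := hadj w w' h
    rcases x with _ | u
    · exact absurd hx (hn w)
    rcases y with _ | v
    · exact absurd hy (hn w')
    exact ⟨u, hx, v, hy, hxy.2 u v rfl rfl⟩

/-- **Theorem 2.** -/
theorem achievable_add_one {β : ℝ} (h : Achievable β) : Achievable (β + 1) := by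
  classical
  obtain ⟨V, _, _, G, hG, hβ⟩ := h
  have hV : (0 : ℝ) < Nat.card V := by exact_mod_cast Nat.card_pos
  have hβ0 : 0 ≤ β := by
    rw [← hβ]
    exact div_nonneg (Nat.cast_nonneg _) hV.le
  have hmin : ∀ (X : Type) [Finite X] [Nonempty X] (Q : SimpleGraph X), IsMinor Q G →
      (ne Q : ℝ) ≤ β * Nat.card X := by
    intro X _ _ Q hQ
    have hX : (0 : ℝ) < Nat.card X := by exact_mod_cast Nat.card_pos
    have := hG X Q hQ
    rw [hβ] at this
    unfold density at this
    rwa [div_le_iff₀ hX] at this
  have hO : Nat.card (Option V) = Nat.card V + 1 := by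
    haveI := Fintype.ofFinite V
    rw [Nat.card_eq_fintype_card, Nat.card_eq_fintype_card, Fintype.card_option]
  have hV1 : 1 ≤ Nat.card V := Nat.card_pos
  refine achievable_of_one (P := cone G) (by omega) ?_ ?_
  · rw [ne_cone, hO]
    have : (ne G : ℝ) = β * Nat.card V := by
      rw [← hβ]
      unfold density
      field_simp
    push_cast
    rw [this]
    ring
  · intro X _ _ Q hQ
    have hX : (1 : ℝ) ≤ Nat.card X := by exact_mod_cast (Nat.card_pos : 0 < Nat.card X)
    obtain ⟨B, hB, hd, hadj⟩ := hQ
    by_cases hn : ∃ b, none ∈ B b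
    · obtain ⟨b, hb⟩ := hn
      have hne : ∀ w : {w : X // w ≠ b}, none ∉ B w.1 := fun w hw =>
        Set.disjoint_left.1 (hd w.1 b w.2) hw hb
      have hQ' : IsMinor (Q.comap (Subtype.val : {w : X // w ≠ b} → X)) G :=
        isMinor_of_cone (B := fun w : {w : X // w ≠ b} => B w.1) (fun w => hB w.1)
          (fun w w' h => hd w.1 w'.1 fun h' => h (Subtype.ext h'))
          (fun w w' h => hadj w.1 w'.1 h) hne
      have h1 := ne_le_del Q b
      have h2 := card_del b
      have h3 : (Nat.card {w : X // w ≠ b} : ℝ) + 1 = Nat.card X := by exact_mod_cast h2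
      have h4 : (ne (Q.comap (Subtype.val : {w : X // w ≠ b} → X)) : ℝ) ≤
          β * Nat.card {w : X // w ≠ b} := by
        rcases isEmpty_or_nonempty {w : X // w ≠ b} with hE | hE
        · have : ne (Q.comap (Subtype.val : {w : X // w ≠ b} → X)) = 0 := by
            unfold ne
            rw [Set.ncard_eq_zero (Set.toFinite _)]
            ext e
            induction e using Sym2.ind with
            | _ x y => exact hE.elim x
          rw [this]
          simp
        · exact hmin _ _ hQ'
      nlinarith
    · push Not at hn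
      have hQ' : IsMinor Q G := isMinor_of_cone hB hd hadj hn
      have h1 := hmin X Q hQ'
      have h2 := ne_le_real Q
      by_cases hc : β + 1 ≤ Nat.card X
      · nlinarith
      · push Not at hc
        nlinarith

end Pool.Agent.L5helper75.EB
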