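import Pool.Agent.L5helper75.EB.Comp

/-!
# Counting the components on the two sides
-/

set_option autoImplicit false

open SimpleGraph

namespace Pool.Agent.L5helper75.EB

section inc

variable {V₁ V₂ U : Type} (P₁ : SimpleGraph V₁) (P₂ : SimpleGraph V₂) (ι₁ : V₁ → U) (ι₂ : V₂ → U)
  (B : Set U)

/-- The incidence graph of the components of the two sides of a set `B`. -/
def incGraph : SimpleGraph ((P₁.induce (ι₁ ⁻¹' B)).ConnectedComponent ⊕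
    (P₂.induce (ι₂ ⁻¹' B)).ConnectedComponent) where
  Adj a b := ∃ (u : ι₁ ⁻¹' B) (v : ι₂ ⁻¹' B), ι₁ u = ι₂ v ∧
    ((a = Sum.inl ((P₁.induce (ι₁ ⁻¹' B)).connectedComponentMk u) ∧
      b = Sum.inr ((P₂.induce (ι₂ ⁻¹' B)).connectedComponentMk v)) ∨
     (b = Sum.inl ((P₁.induce (ι₁ ⁻¹' B)).connectedComponentMk u) ∧
      a = Sum.inr ((P₂.induce (ι₂ ⁻¹' B)).connectedComponentMk v)))
  symm := ⟨fun a b => by
    rintro ⟨u, v, h, h' | h'⟩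
    · exact ⟨u, v, h, Or.inr h'⟩
    · exact ⟨u, v, h, Or.inl h'⟩⟩
  loopless := ⟨fun a => by
    rintro ⟨u, v, h, ⟨h1, h2⟩ | ⟨h1, h2⟩⟩
    · rw [h1] at h2; cases h2
    · rw [h1] at h2; cases h2⟩

variable {P₁ P₂ ι₁ ι₂ B}

/-- `G` is the union of the images of the two graphs. -/
def IsUnion (G : SimpleGraph U) (P₁ : SimpleGraph V₁) (P₂ : SimpleGraph V₂) (ι₁ : V₁ → U)
    (ι₂ : V₂ → U) : Prop :=
  (∀ u, (∃ v, ι₁ v = u) ∨ ∃ v, ι₂ v = u) ∧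
  ∀ x y, G.Adj x y → (∃ u v, ι₁ u = x ∧ ι₁ v = y ∧ P₁.Adj u v) ∨
    ∃ u v, ι₂ u = x ∧ ι₂ v = y ∧ P₂.Adj u v

/-- The nodes of a point of `B`. -/
def IsNode (P₁ : SimpleGraph V₁) (P₂ : SimpleGraph V₂) (ι₁ : V₁ → U) (ι₂ : V₂ → U) (B : Set U)
    (x : U) (a : (P₁.induce (ι₁ ⁻¹' B)).ConnectedComponent ⊕
      (P₂.induce (ι₂ ⁻¹' B)).ConnectedComponent) : Prop :=
  (∃ u : ι₁ ⁻¹' B, ι₁ u = x ∧ a = Sum.inl ((P₁.induce (ι₁ ⁻¹' B)).connectedComponentMk u)) ∨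
  ∃ v : ι₂ ⁻¹' B, ι₂ v = x ∧ a = Sum.inr ((P₂.induce (ι₂ ⁻¹' B)).connectedComponentMk v)

theorem node_same (h₁ : Function.Injective ι₁) (h₂ : Function.Injective ι₂) {x : U}
    {a b : (P₁.induce (ι₁ ⁻¹' B)).ConnectedComponent ⊕
      (P₂.induce (ι₂ ⁻¹' B)).ConnectedComponent}
    (ha : IsNode P₁ P₂ ι₁ ι₂ B x a) (hb : IsNode P₁ P₂ ι₁ ι₂ B x b) :
    (incGraph P₁ P₂ ι₁ ι₂ B).Reachable a b := by
  rcases ha with ⟨u, hu, rfl⟩ | ⟨u, hu, rfl⟩ <;> rcases hb with ⟨v, hv, rfl⟩ | ⟨v, hv, rfl⟩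
  · have : u = v := Subtype.ext (h₁ (hu.trans hv.symm))
    subst this
    rfl
  · exact Adj.reachable ⟨u, v, hu.trans hv.symm, Or.inl ⟨rfl, rfl⟩⟩
  · exact Adj.reachable ⟨v, u, hv.trans hu.symm, Or.inr ⟨rfl, rfl⟩⟩
  · have : u = v := Subtype.ext (h₂ (hu.trans hv.symm))
    subst this
    rfl

theorem node_exists {G : SimpleGraph U} (hG : IsUnion G P₁ P₂ ι₁ ι₂) {x : U} (hx : x ∈ B) :
    ∃ a, IsNode P₁ P₂ ι₁ ι₂ B x a := by
  rcases hG.1 x with ⟨u, rfl⟩ | ⟨u, rfl⟩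
  · exact ⟨_, Or.inl ⟨⟨u, hx⟩, rfl, rfl⟩⟩
  · exact ⟨_, Or.inr ⟨⟨u, hx⟩, rfl, rfl⟩⟩

theorem node_adj (h₁ : Function.Injective ι₁) (h₂ : Function.Injective ι₂)
    {G : SimpleGraph U} (hG : IsUnion G P₁ P₂ ι₁ ι₂) {x y : U} (hx : x ∈ B) (hy : y ∈ B)
    (hxy : G.Adj x y) {a b : (P₁.induce (ι₁ ⁻¹' B)).ConnectedComponent ⊕
      (P₂.induce (ι₂ ⁻¹' B)).ConnectedComponent}
    (ha : IsNode P₁ P₂ ι₁ ι₂ B x a) (hb : IsNode P₁ P₂ ι₁ ι₂ B y b) :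
    (incGraph P₁ P₂ ι₁ ι₂ B).Reachable a b := by
  rcases hG.2 x y hxy with ⟨u, v, rfl, rfl, huv⟩ | ⟨u, v, rfl, rfl, huv⟩
  · have h : (P₁.induce (ι₁ ⁻¹' B)).connectedComponentMk ⟨u, hx⟩ =
        (P₁.induce (ι₁ ⁻¹' B)).connectedComponentMk ⟨v, hy⟩ :=
      ConnectedComponent.sound (Adj.reachable huv)
    have h1 : IsNode P₁ P₂ ι₁ ι₂ B (ι₁ u)
      (Sum.inl ((P₁.induce (ι₁ ⁻¹' B)).connectedComponentMk ⟨u, hx⟩)) :=
      Or.inl ⟨⟨u, hx⟩, rfl, rfl⟩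
    have h2 : IsNode P₁ P₂ ι₁ ι₂ B (ι₁ v)
      (Sum.inl ((P₁.induce (ι₁ ⁻¹' B)).connectedComponentMk ⟨v, hy⟩)) :=
      Or.inl ⟨⟨v, hy⟩, rfl, rfl⟩
    rw [← h] at h2
    exact (node_same h₁ h₂ ha h1).trans (node_same h₁ h₂ h2 hb)
  · have h : (P₂.induce (ι₂ ⁻¹' B)).connectedComponentMk ⟨u, hx⟩ =
        (P₂.induce (ι₂ ⁻¹' B)).connectedComponentMk ⟨v, hy⟩ :=
      ConnectedComponent.sound (Adj.reachable huv)
    have h1 : IsNode P₁ P₂ ι₁ ι₂ B (ι₂ u)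
      (Sum.inr ((P₂.induce (ι₂ ⁻¹' B)).connectedComponentMk ⟨u, hx⟩)) :=
      Or.inr ⟨⟨u, hx⟩, rfl, rfl⟩
    have h2 : IsNode P₁ P₂ ι₁ ι₂ B (ι₂ v)
      (Sum.inr ((P₂.induce (ι₂ ⁻¹' B)).connectedComponentMk ⟨v, hy⟩)) :=
      Or.inr ⟨⟨v, hy⟩, rfl, rfl⟩
    rw [← h] at h2
    exact (node_same h₁ h₂ ha h1).trans (node_same h₁ h₂ h2 hb)

theorem inc_connected (h₁ : Function.Injective ι₁) (h₂ : Function.Injective ι₂)
    {G : SimpleGraph U} (hG : IsUnion G P₁ P₂ ι₁ ι₂) (hB : (G.induce B).Connected) :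
    (incGraph P₁ P₂ ι₁ ι₂ B).Connected := by
  have key : ∀ x y : B, (G.induce B).Reachable x y → ∀ a b,
      IsNode P₁ P₂ ι₁ ι₂ B x a → IsNode P₁ P₂ ι₁ ι₂ B y b →
      (incGraph P₁ P₂ ι₁ ι₂ B).Reachable a b := by
    intro x y hxy
    obtain ⟨w⟩ := hxy
    induction w with
    | nil => intro a b ha hb; exact node_same h₁ h₂ ha hb
    | @cons x z y h w ih =>
      intro a b ha hb
      obtain ⟨c, hc⟩ := node_exists (B := B) hG z.2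
      exact (node_adj h₁ h₂ hG x.2 z.2 h ha hc).trans (ih c b hc hb)
  have hnode : ∀ a, ∃ x : B, IsNode P₁ P₂ ι₁ ι₂ B x a := by
    rintro (C | C)
    · induction C using ConnectedComponent.ind with
      | _ u => exact ⟨⟨ι₁ u, u.2⟩, Or.inl ⟨u, rfl, rfl⟩⟩
    · induction C using ConnectedComponent.ind with
      | _ u => exact ⟨⟨ι₂ u, u.2⟩, Or.inr ⟨u, rfl, rfl⟩⟩
  obtain ⟨x⟩ := hB.nonempty
  obtain ⟨a, ha⟩ := node_exists (B := B) hG x.2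
  haveI : Nonempty ((P₁.induce (ι₁ ⁻¹' B)).ConnectedComponent ⊕
      (P₂.induce (ι₂ ⁻¹' B)).ConnectedComponent) := ⟨a⟩
  refine ⟨fun a b => ?_⟩
  obtain ⟨x, hx⟩ := hnode a
  obtain ⟨y, hy⟩ := hnode b
  exact key x y (hB.preconnected x y) a b hx hy

/-- The number of components on both sides. -/
theorem card_comp [Finite V₁] [Finite V₂] [Finite U] (h₁ : Function.Injective ι₁)
    (h₂ : Function.Injective ι₂) {G : SimpleGraph U} (hG : IsUnion G P₁ P₂ ι₁ ι₂)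
    (hB : (G.induce B).Connected) :
    Nat.card (P₁.induce (ι₁ ⁻¹' B)).ConnectedComponent +
      Nat.card (P₂.induce (ι₂ ⁻¹' B)).ConnectedComponent ≤
      1 + (B ∩ (Set.range ι₁ ∩ Set.range ι₂)).ncard := by
  classical
  have hc := (inc_connected h₁ h₂ hG hB).card_vert_le_card_edgeSet_add_one
  rw [Nat.card_sum] at hc
  have hle : Nat.card (incGraph P₁ P₂ ι₁ ι₂ B).edgeSet ≤
      (B ∩ (Set.range ι₁ ∩ Set.range ι₂)).ncard := by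
    let T : Set U := B ∩ (Set.range ι₁ ∩ Set.range ι₂)
    let g : T → Sym2 ((P₁.induce (ι₁ ⁻¹' B)).ConnectedComponent ⊕
        (P₂.induce (ι₂ ⁻¹' B)).ConnectedComponent) := fun t =>
      s(Sum.inl ((P₁.induce (ι₁ ⁻¹' B)).connectedComponentMk
          ⟨t.2.2.1.choose, by
            show ι₁ _ ∈ B
            rw [t.2.2.1.choose_spec]; exact t.2.1⟩),
        Sum.inr ((P₂.induce (ι₂ ⁻¹' B)).connectedComponentMk
          ⟨t.2.2.2.choose, by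
            show ι₂ _ ∈ B
            rw [t.2.2.2.choose_spec]; exact t.2.1⟩))
    have hsub : (incGraph P₁ P₂ ι₁ ι₂ B).edgeSet ⊆ Set.range g := by
      intro e he
      induction e using Sym2.ind with
      | _ a b =>
        obtain ⟨u, v, huv, hab⟩ := (SimpleGraph.mem_edgeSet _).1 he
        have ht : ι₁ u ∈ T := ⟨u.2, ⟨u, rfl⟩, ⟨v, huv.symm⟩⟩
        refine ⟨⟨ι₁ u, ht⟩, ?_⟩
        have e1 : ht.2.1.choose = u := h₁ ht.2.1.choose_spec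
        have e2 : ht.2.2.choose = v := h₂ (ht.2.2.choose_spec.trans huv)
        have e1' : (⟨ht.2.1.choose, by
            show ι₁ _ ∈ B
            rw [ht.2.1.choose_spec]; exact ht.1⟩ : ι₁ ⁻¹' B) = u := Subtype.ext e1
        have e2' : (⟨ht.2.2.choose, by
            show ι₂ _ ∈ B
            rw [ht.2.2.choose_spec]; exact ht.1⟩ : ι₂ ⁻¹' B) = v := Subtype.ext e2
        simp only [g]
        rw [e1', e2']
        rcases hab with ⟨rfl, rfl⟩ | ⟨rfl, rfl⟩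
        · rfl
        · exact Sym2.eq_swap
    calc Nat.card (incGraph P₁ P₂ ι₁ ι₂ B).edgeSet
        = (incGraph P₁ P₂ ι₁ ι₂ B).edgeSet.ncard := rfl
      _ ≤ (Set.range g).ncard := Set.ncard_le_ncard hsub (Set.toFinite _)
      _ ≤ Nat.card T := by
          rw [← Set.image_univ]
          exact (Set.ncard_image_le (Set.toFinite _)).trans (by rw [Set.ncard_univ])
      _ = T.ncard := rfl
  omega

end inc

end Pool.Agent.L5helper75.EB
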