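import Pool.Agent.L5helper75.EB.Blocks

/-!
# The critical density of a class with bounded blocks
-/

set_option autoImplicit false

open SimpleGraph Filter

namespace Pool.Agent.L5helper75.EB

/-- A class of graphs which is closed under minors (and so under isomorphisms). -/
def MinorClosed (A : (V : Type) → SimpleGraph V → Prop) : Prop :=
  ∀ (V W : Type) [Finite V] [Finite W] (G : SimpleGraph V) (H : SimpleGraph W),
    A V G → IsMinor H G → A W H

/-- The densities of the members. -/
def densities (A : (V : Type) → SimpleGraph V → Prop) : Set ℝ :=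
  {d | ∃ (V : Type) (_ : Finite V) (_ : Nonempty V) (G : SimpleGraph V), A V G ∧ density G = d}

/-- For finitely many positive numbers, a large multiple of each is at least `c`. -/
theorem exists_mul {ι : Type} (s : Finset ι) (f : ι → ℝ) (c : ℝ) :
    ∃ k : ℕ, 1 ≤ k ∧ ∀ i ∈ s, 0 < f i → c ≤ k * f i := by
  have h : ∀ᶠ k : ℕ in atTop, ∀ i ∈ s, 0 < f i → c ≤ k * f i := by
    rw [eventually_all_finset]
    intro i _
    by_cases hf : 0 < f i
    · have := (tendsto_natCast_atTop_atTop (R := ℝ)).atTop_mul_const hf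
      filter_upwards [this.eventually_ge_atTop c] with k hk _
      exact hk
    · exact Eventually.of_forall fun k h => absurd h hf
  obtain ⟨k, hk, hk1⟩ := (h.and (eventually_ge_atTop 1)).exists
  exact ⟨k, hk1, hk⟩

theorem ne_le_sq {W : Type} [Finite W] {n : ℕ} (M : SimpleGraph W) (h : Nat.card W ≤ n) :
    ne M ≤ n ^ 2 := by
  refine (ne_le_choose M).trans ?_
  refine (Nat.choose_le_pow _ _).trans ?_
  exact Nat.pow_le_pow_left h 2

/-- **Theorem 3.** -/
theorem bounded_blocks (A : (V : Type) → SimpleGraph V → Prop) (hA : MinorClosed A) (N : ℕ)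
    (hN : ∀ (V : Type) [Finite V] (G : SimpleGraph V), A V G → TwoConnected G → Nat.card V ≤ N)
    {β : ℝ} (hβ : IsLUB (densities A) β) : Achievable β := by
  classical
  by_contra hno
  have hle : ∀ (V : Type) [Finite V] [Nonempty V] (G : SimpleGraph V), A V G →
      (ne G : ℝ) ≤ β * Nat.card V := by
    intro V _ _ G hG
    have hV : (0 : ℝ) < Nat.card V := by exact_mod_cast Nat.card_pos
    have h1 : density G ≤ β := hβ.1 ⟨V, inferInstance, inferInstance, G, hG, rfl⟩
    unfold density at h1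
    rwa [div_le_iff₀ hV] at h1
  have hlt : ∀ (V : Type) [Finite V] [Nonempty V] (G : SimpleGraph V), A V G →
      (ne G : ℝ) < β * Nat.card V := by
    intro V _ _ G hG
    refine lt_of_le_of_ne (hle V G hG) fun he => hno ?_
    exact achievable_of_bound G he fun X _ _ Q hQ => hle X Q (hA V X G Q hG hQ)
  have hval : ∀ (V : Type) [Finite V] (G : SimpleGraph V) (r : ℝ), A V G → Val β G r → r < β := by
    intro V _ G r hG hr
    obtain ⟨W, _, _, M, hM, hr⟩ := hr
    have h1 := hlt W M (hA V W G M hG hM)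
    linarith
  -- constants
  obtain ⟨N₀, hN₀⟩ : ∃ N₀ : ℕ, N₀ = N + 3 := ⟨_, rfl⟩
  obtain ⟨c, hc⟩ : ∃ c : ℝ, c = (N₀ : ℝ) ^ 2 + |β| * N₀ + N₀ := ⟨_, rfl⟩
  obtain ⟨k₁, hk₁, hk₁'⟩ := exists_mul (Finset.range (N₀ ^ 2 + 1) ×ˢ Finset.range (N₀ + 1))
    (fun z : ℕ × ℕ => (z.1 : ℝ) - β * (z.2 - 1)) c
  obtain ⟨k₂, hk₂, hk₂'⟩ := exists_mul (Finset.range (N₀ ^ 2 + 1) ×ˢ Finset.range (N₀ + 1))
    (fun z : ℕ × ℕ => β * (z.2 - 1) - (z.1 : ℝ)) N₀
  obtain ⟨k, hk⟩ : ∃ k : ℝ, k = k₁ + k₂ := ⟨_, rfl⟩
  have hk1 : (1 : ℝ) ≤ k₁ := by exact_mod_cast hk₁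
  have hk2 : (1 : ℝ) ≤ k₂ := by exact_mod_cast hk₂
  have hkpos : (1 : ℝ) ≤ k := by linarith
  have hk0 : (0 : ℝ) < k := by linarith
  -- small graphs
  have small : ∀ (V : Type) [Finite V] [Nonempty V] (G : SimpleGraph V), A V G →
      Nat.card V ≤ N₀ → ∃ r, Val β G r ∧ (ne G : ℝ) - β * (Nat.card V - 1) ≤
        k * r - (Nat.card V - 1) / k := by
    intro V _ _ G hG hV
    have hV1 : 1 ≤ Nat.card V := Nat.card_pos
    have hVr : (1 : ℝ) ≤ Nat.card V := by exact_mod_cast hV1
    have hVN : (Nat.card V : ℝ) ≤ N₀ := by exact_mod_cast hV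
    have hneG : ne G ≤ N₀ ^ 2 := ne_le_sq G hV
    have hneG' : (ne G : ℝ) ≤ (N₀ : ℝ) ^ 2 := by exact_mod_cast hneG
    have hfrac : ((Nat.card V : ℝ) - 1) / k ≤ N₀ := by
      rw [div_le_iff₀ hk0]
      nlinarith
    have hxle : (ne G : ℝ) - β * (Nat.card V - 1) + N₀ ≤ c := by
      rw [hc]
      have h1 : -β ≤ |β| := neg_le_abs β
      have h2 : 0 ≤ |β| := abs_nonneg β
      nlinarith
    have hv0 : Val β G 0 := by
      obtain ⟨v⟩ := ‹Nonempty V›
      refine ⟨Unit, inferInstance, inferInstance, ⊥, isMinor_one G v, ?_⟩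
      simp
    by_cases hpos : ∃ (W : Type) (_ : Finite W) (_ : Nonempty W) (M : SimpleGraph W),
        IsMinor M G ∧ 0 < (ne M : ℝ) - β * (Nat.card W - 1)
    · obtain ⟨W, _, _, M, hM, hp⟩ := hpos
      refine ⟨(ne M : ℝ) - β * (Nat.card W - 1), ⟨W, inferInstance, inferInstance, M, hM, le_rfl⟩, ?_⟩
      have hW : Nat.card W ≤ N₀ := (card_le_of_isMinor hM).trans hV
      have h1 := hk₁' (ne M, Nat.card W) (Finset.mem_product.2
        ⟨Finset.mem_range.2 (Nat.lt_succ_of_le (ne_le_sq M hW)),
          Finset.mem_range.2 (Nat.lt_succ_of_le hW)⟩) hp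
      have h2 : (k₁ : ℝ) * ((ne M : ℝ) - β * (Nat.card W - 1)) ≤
          k * ((ne M : ℝ) - β * (Nat.card W - 1)) :=
        mul_le_mul_of_nonneg_right (by linarith) hp.le
      have h1' : c ≤ (k₁ : ℝ) * ((ne M : ℝ) - β * (Nat.card W - 1)) := h1
      linarith
    · push Not at hpos
      have hneg : ∀ (X : Type) [Finite X] [Nonempty X] (Q : SimpleGraph X), IsMinor Q G →
          (ne Q : ℝ) ≤ β * (Nat.card X - 1) := by
        intro X _ _ Q hQ
        have := hpos X inferInstance inferInstance Q hQ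
        linarith
      refine ⟨0, hv0, ?_⟩
      rw [mul_zero, zero_sub]
      rcases Nat.lt_or_ge 1 (Nat.card V) with h2 | h2
      · have h3 := hneg V G (isMinor_self G)
        have h4 : (ne G : ℝ) ≠ β * (Nat.card V - 1) := fun he => hno (achievable_of_one h2 he hneg)
        have h5 : 0 < β * ((Nat.card V : ℝ) - 1) - (ne G : ℝ) := by
          have := lt_of_le_of_ne h3 h4
          linarith
        have h6 := hk₂' (ne G, Nat.card V) (Finset.mem_product.2
          ⟨Finset.mem_range.2 (Nat.lt_succ_of_le hneG),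
            Finset.mem_range.2 (Nat.lt_succ_of_le hV)⟩) h5
        have h7 : (k₂ : ℝ) * (β * ((Nat.card V : ℝ) - 1) - (ne G : ℝ)) ≤
            k * (β * ((Nat.card V : ℝ) - 1) - (ne G : ℝ)) :=
          mul_le_mul_of_nonneg_right (by linarith) h5.le
        have h8 : (N₀ : ℝ) ≤ (k₂ : ℝ) * (β * ((Nat.card V : ℝ) - 1) - (ne G : ℝ)) := h6
        have h9 : ((Nat.card V : ℝ) - 1) / k ≤ β * ((Nat.card V : ℝ) - 1) - (ne G : ℝ) := by
          rw [div_le_iff₀ hk0]
          nlinarith
        linarith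
      · have h3 : Nat.card V = 1 := le_antisymm h2 hV1
        have h4 := hneg V G (isMinor_self G)
        rw [h3] at h4 ⊢
        simp only [Nat.cast_one, sub_self, mul_zero, zero_div, neg_zero, sub_zero] at h4 ⊢
        exact h4
  -- connected graphs
  have conn : ∀ (n : ℕ) (V : Type) [Finite V] [Nonempty V] (G : SimpleGraph V), A V G →
      G.Connected → Nat.card V = n → ∃ r, Val β G r ∧ (ne G : ℝ) - β * (Nat.card V - 1) ≤
        k * r - (Nat.card V - 1) / k := by
    intro n
    induction n using Nat.strong_induction_on with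
    | _ n ih =>
      intro V _ _ G hG hconn hn
      by_cases hs : Nat.card V ≤ N₀
      · exact small V G hG hs
      · push Not at hs
        have h2c : ¬ TwoConnected G := fun h2 => by
          have := hN V G hG h2
          omega
        obtain ⟨X, Y, u, hI, hX, hY, hXc, hYc, hsum, hne⟩ :=
          split_of_not_twoConnected hconn (by omega) h2c
        have huX : u ∈ X := (hI.symm ▸ rfl : u ∈ X ∩ Y).1
        have huY : u ∈ Y := (hI.symm ▸ rfl : u ∈ X ∩ Y).2
        haveI : Nonempty X := ⟨⟨u, huX⟩⟩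
        haveI : Nonempty Y := ⟨⟨u, huY⟩⟩
        obtain ⟨r, hr, hr'⟩ := ih (Nat.card X) (by omega) X (G.induce X)
          (hA V X G _ hG (isMinor_induce G X)) hX rfl
        obtain ⟨s, hs, hs'⟩ := ih (Nat.card Y) (by omega) Y (G.induce Y)
          (hA V Y G _ hG (isMinor_induce G Y)) hY rfl
        refine ⟨r + s, val_add hI hX hY hr hs, ?_⟩
        have h1 : (Nat.card X : ℝ) + Nat.card Y = Nat.card V + 1 := by exact_mod_cast hsum
        have h2 : (Nat.card V : ℝ) - 1 = (Nat.card X - 1) + (Nat.card Y - 1) := by linarith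
        rw [hne, h2]
        push_cast
        have h3 : ((Nat.card X : ℝ) - 1 + (Nat.card Y - 1)) / k =
            (Nat.card X - 1) / k + (Nat.card Y - 1) / k := add_div _ _ _
        rw [h3]
        linarith
  -- a gap for the connected graphs
  obtain ⟨L, hL⟩ := exists_nat_ge (2 * k * (k * |β| + |β| + 1))
  obtain ⟨m, hm, hm'⟩ := exists_mul (Finset.range (L ^ 2 + 1) ×ˢ Finset.range (L + 1))
    (fun z : ℕ × ℕ => β * z.2 - (z.1 : ℝ)) L
  have hm0 : (0 : ℝ) < m := by exact_mod_cast hm
  obtain ⟨ε, hε⟩ : ∃ ε : ℝ, ε = min (1 / (2 * k)) (1 / m) := ⟨_, rfl⟩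
  have hε0 : 0 < ε := by
    rw [hε]
    exact lt_min (by positivity) (by positivity)
  have hε1 : ε ≤ 1 / (2 * k) := hε ▸ min_le_left _ _
  have hε2 : ε ≤ 1 / m := hε ▸ min_le_right _ _
  have gap : ∀ (V : Type) [Finite V] [Nonempty V] (G : SimpleGraph V), A V G → G.Connected →
      (ne G : ℝ) ≤ (β - ε) * Nat.card V := by
    intro V _ _ G hG hconn
    have hV1 : 1 ≤ Nat.card V := Nat.card_pos
    have hVr : (1 : ℝ) ≤ Nat.card V := by exact_mod_cast hV1
    by_cases hVL : Nat.card V ≤ L
    · have h1 := hlt V G hG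
      have h2 := hm' (ne G, Nat.card V) (Finset.mem_product.2
        ⟨Finset.mem_range.2 (Nat.lt_succ_of_le (ne_le_sq G hVL)),
          Finset.mem_range.2 (Nat.lt_succ_of_le hVL)⟩) (by
            show 0 < β * (Nat.card V : ℝ) - (ne G : ℝ)
            linarith)
      have h3 : (L : ℝ) ≤ m * (β * Nat.card V - ne G) := h2
      have h4 : (Nat.card V : ℝ) ≤ L := by exact_mod_cast hVL
      have h5 : (Nat.card V : ℝ) / m ≤ β * Nat.card V - ne G := by
        rw [div_le_iff₀ hm0]
        linarith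
      have h6 : ε * Nat.card V ≤ Nat.card V / m := by
        calc ε * Nat.card V ≤ (1 / m) * Nat.card V :=
              mul_le_mul_of_nonneg_right hε2 (by linarith)
          _ = Nat.card V / m := by ring
      linarith
    · push Not at hVL
      obtain ⟨r, hr, hr'⟩ := conn _ V G hG hconn rfl
      have h1 := hval V G r hG hr
      have h2 : k * r ≤ k * β := mul_le_mul_of_nonneg_left h1.le hk0.le
      have h3 : (L : ℝ) ≤ Nat.card V := by exact_mod_cast hVL.le
      have h4 : 2 * k * (k * |β| + |β| + 1) ≤ Nat.card V := hL.trans h3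
      have h5 : k * |β| + |β| + 1 ≤ Nat.card V / (2 * k) := by
        rw [le_div_iff₀ (by positivity)]
        linarith
      have h6 : k * β ≤ k * |β| := mul_le_mul_of_nonneg_left (le_abs_self β) hk0.le
      have h7 : -β ≤ |β| := neg_le_abs β
      have h8 : ((Nat.card V : ℝ) - 1) / k = Nat.card V / k - 1 / k := sub_div _ _ _
      have h9 : 1 / k ≤ 1 := by
        rw [div_le_one hk0]
        exact hkpos
      have h10 : (Nat.card V : ℝ) / k = 2 * (Nat.card V / (2 * k)) := by
        field_simp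
      have h11 : ε * Nat.card V ≤ Nat.card V / (2 * k) := by
        calc ε * Nat.card V ≤ (1 / (2 * k)) * Nat.card V :=
              mul_le_mul_of_nonneg_right hε1 (by linarith)
          _ = Nat.card V / (2 * k) := by ring
      nlinarith
  -- all graphs
  have all : ∀ (n : ℕ) (V : Type) [Finite V] [Nonempty V] (G : SimpleGraph V), A V G →
      Nat.card V = n → (ne G : ℝ) ≤ (β - ε) * Nat.card V := by
    intro n
    induction n using Nat.strong_induction_on with
    | _ n ih =>
      intro V _ _ G hG hn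
      by_cases hconn : G.Connected
      · exact gap V G hG hconn
      · obtain ⟨S, ⟨a, ha⟩, ⟨b, hb⟩, hS⟩ := split_of_not_connected G hconn
        haveI : Nonempty S := ⟨⟨a, ha⟩⟩
        haveI : Nonempty (Sᶜ : Set V) := ⟨⟨b, hb⟩⟩
        have h1 : Nat.card S < Nat.card V := card_lt hb
        have h2 : Nat.card (Sᶜ : Set V) < Nat.card V := card_lt (v := a) (fun h => h ha)
        have h3 : ne G = ne (G.induce S) + ne (G.induce Sᶜ) := by
          apply ne_split
          · intro x y hxy
            by_cases hx : x ∈ S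
            · exact Or.inl ⟨hx, (hS x y hxy).1 hx⟩
            · exact Or.inr ⟨hx, fun hy => hx ((hS x y hxy).2 hy)⟩
          · intro x y hx hx' _ _
            exact absurd hx hx'
        have h4 : Nat.card S + Nat.card (Sᶜ : Set V) = Nat.card V := Set.ncard_add_ncard_compl S
        have h5 := ih _ (by omega) S (G.induce S) (hA V S G _ hG (isMinor_induce G S)) rfl
        have h6 := ih _ (by omega) (Sᶜ : Set V) (G.induce Sᶜ)
          (hA V _ G _ hG (isMinor_induce G Sᶜ)) rfl
        have h7 : (Nat.card S : ℝ) + Nat.card (Sᶜ : Set V) = Nat.card V := by exact_mod_cast h4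
        rw [h3, ← h7]
        push_cast
        linarith
  have hub : β ≤ β - ε := by
    apply hβ.2
    rintro d ⟨V, _, _, G, hG, rfl⟩
    have hV : (0 : ℝ) < Nat.card V := by exact_mod_cast Nat.card_pos
    unfold density
    rw [div_le_iff₀ hV]
    exact all _ V G hG rfl
  linarith

end Pool.Agent.L5helper75.EB
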