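import Pool.Agent.L5helper75.EB.Bound

/-!
# Densities after gluing at one vertex
-/

set_option autoImplicit false

open SimpleGraph

namespace Pool.Agent.L5helper75.EB

/-- The density. -/
noncomputable def density {V : Type} (G : SimpleGraph V) : ℝ := (ne G : ℝ) / Nat.card V

/-- Every minor has at most the density of `G`. -/
def MinorBalanced {V : Type} (G : SimpleGraph V) : Prop :=
  ∀ (X : Type) [Finite X] [Nonempty X] (Q : SimpleGraph X), IsMinor Q G → density Q ≤ density G

/-- `β` is the density of a minor-balanced graph. -/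
def Achievable (β : ℝ) : Prop :=
  ∃ (V : Type) (_ : Finite V) (_ : Nonempty V) (G : SimpleGraph V), MinorBalanced G ∧ density G = β

theorem achievable_of_bound {V : Type} [Finite V] [Nonempty V] (G : SimpleGraph V) {β : ℝ}
    (h : (ne G : ℝ) = β * Nat.card V)
    (h' : ∀ (X : Type) [Finite X] [Nonempty X] (Q : SimpleGraph X), IsMinor Q G →
      (ne Q : ℝ) ≤ β * Nat.card X) : Achievable β := by
  have hV : (0 : ℝ) < Nat.card V := by exact_mod_cast Nat.card_pos
  have hd : density G = β := by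
    unfold density
    rw [h]
    field_simp
  refine ⟨V, inferInstance, inferInstance, G, ?_, hd⟩
  intro X _ _ Q hQ
  have hX : (0 : ℝ) < Nat.card X := by exact_mod_cast Nat.card_pos
  rw [hd]
  unfold density
  rw [div_le_iff₀ hX]
  exact h' X Q hQ

/-! ## The glued graph -/

section glue

variable {V₁ V₂ U : Type} (P₁ : SimpleGraph V₁) (P₂ : SimpleGraph V₂) (ι₁ : V₁ → U) (ι₂ : V₂ → U)

/-- The union of the images. -/
def glue (h₁ : Function.Injective ι₁) (h₂ : Function.Injective ι₂) : SimpleGraph U where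
  Adj a b := (∃ u v, ι₁ u = a ∧ ι₁ v = b ∧ P₁.Adj u v) ∨ ∃ u v, ι₂ u = a ∧ ι₂ v = b ∧ P₂.Adj u v
  symm := ⟨fun a b => by
    rintro (⟨u, v, rfl, rfl, h⟩ | ⟨u, v, rfl, rfl, h⟩)
    · exact Or.inl ⟨v, u, rfl, rfl, h.symm⟩
    · exact Or.inr ⟨v, u, rfl, rfl, h.symm⟩⟩
  loopless := ⟨fun a => by
    rintro (⟨u, v, h, h', huv⟩ | ⟨u, v, h, h', huv⟩)
    · exact huv.ne (h₁ (h.trans h'.symm))
    · exact huv.ne (h₂ (h.trans h'.symm))⟩

theorem ne_glue [Finite V₁] [Finite V₂] [Finite U] (h₁ : Function.Injective ι₁)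
    (h₂ : Function.Injective ι₂)
    (hd : ∀ u v u' v', P₁.Adj u v → P₂.Adj u' v' → ι₁ u = ι₂ u' → ι₁ v = ι₂ v' → False) :
    ne (glue P₁ P₂ ι₁ ι₂ h₁ h₂) = ne P₁ + ne P₂ := by
  have he : (glue P₁ P₂ ι₁ ι₂ h₁ h₂).edgeSet =
      Sym2.map ι₁ '' P₁.edgeSet ∪ Sym2.map ι₂ '' P₂.edgeSet := by
    ext e
    induction e using Sym2.ind with
    | _ a b =>
      constructor
      · intro h
        rcases (SimpleGraph.mem_edgeSet _).1 h with ⟨u, v, rfl, rfl, huv⟩ | ⟨u, v, rfl, rfl, huv⟩
        · exact Or.inl ⟨s(u, v), huv, rfl⟩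
        · exact Or.inr ⟨s(u, v), huv, rfl⟩
      · rintro (⟨e, he, hab⟩ | ⟨e, he, hab⟩)
        · induction e using Sym2.ind with
          | _ u v =>
            rw [Sym2.map_mk] at hab
            rw [← hab]
            exact (SimpleGraph.mem_edgeSet _).2 (Or.inl ⟨u, v, rfl, rfl, he⟩)
        · induction e using Sym2.ind with
          | _ u v =>
            rw [Sym2.map_mk] at hab
            rw [← hab]
            exact (SimpleGraph.mem_edgeSet _).2 (Or.inr ⟨u, v, rfl, rfl, he⟩)
  have hdis : Disjoint (Sym2.map ι₁ '' P₁.edgeSet) (Sym2.map ι₂ '' P₂.edgeSet) := by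
    rw [Set.disjoint_left]
    rintro _ ⟨e, he, rfl⟩ ⟨e', he', h⟩
    induction e using Sym2.ind with
    | _ u v =>
      induction e' using Sym2.ind with
      | _ u' v' =>
        rw [Sym2.map_mk, Sym2.map_mk] at h
        rcases Sym2.eq_iff.1 h with ⟨h3, h4⟩ | ⟨h3, h4⟩
        · exact hd u v u' v' he he' h3.symm h4.symm
        · exact hd u v v' u' he (SimpleGraph.Adj.symm he') h4.symm h3.symm
  unfold ne
  rw [he, Set.ncard_union_eq hdis (Set.toFinite _) (Set.toFinite _),
    Set.ncard_image_of_injective _ (Sym2.map.injective h₁),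
    Set.ncard_image_of_injective _ (Sym2.map.injective h₂)]

theorem isUnion_glue (h₁ : Function.Injective ι₁) (h₂ : Function.Injective ι₂)
    (hs : ∀ u, (∃ v, ι₁ v = u) ∨ ∃ v, ι₂ v = u) :
    IsUnion (glue P₁ P₂ ι₁ ι₂ h₁ h₂) P₁ P₂ ι₁ ι₂ := ⟨hs, fun _ _ h => h⟩

end glue

/-! ## Simple counts -/

/-- A minor of a graph on `n` vertices has at most `n` vertices. -/
theorem card_le_of_isMinor {W V : Type} [Finite V] {M : SimpleGraph W} {G : SimpleGraph V}
    (h : IsMinor M G) : Nat.card W ≤ Nat.card V := by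
  classical
  obtain ⟨B, hB, hd, -⟩ := h
  have hne : ∀ w, ∃ x, x ∈ B w := fun w => by
    obtain ⟨x⟩ := (hB w).nonempty
    exact ⟨x, x.2⟩
  choose f hf using hne
  apply Nat.card_le_card_of_injective f
  intro w w' hww
  by_contra hne
  exact Set.disjoint_left.1 (hd w w' hne) (hf w) (hww ▸ hf w')

theorem ne_le_choose {W : Type} [Finite W] (M : SimpleGraph W) : ne M ≤ (Nat.card W).choose 2 := by
  classical
  haveI := Fintype.ofFinite W
  have h := M.card_edgeFinset_le_card_choose_two
  rw [Nat.card_eq_fintype_card]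
  unfold ne
  rw [← SimpleGraph.coe_edgeFinset, Set.ncard_coe_finset]
  exact h

theorem ne_le_real {W : Type} [Finite W] [Nonempty W] (M : SimpleGraph W) :
    (ne M : ℝ) ≤ Nat.card W * (Nat.card W - 1) / 2 := by
  have h := ne_le_choose M
  have h1 : ((Nat.card W).choose 2 : ℝ) = Nat.card W * (Nat.card W - 1) / 2 := by
    rw [Nat.cast_choose_two]
  rw [← h1]
  exact_mod_cast h

theorem ne_top {W : Type} [Finite W] : ne (⊤ : SimpleGraph W) = (Nat.card W).choose 2 := by
  classical
  haveI := Fintype.ofFinite W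
  have h := SimpleGraph.card_edgeFinset_top_eq_card_choose_two (V := W)
  rw [Nat.card_eq_fintype_card, ← h]
  unfold ne
  rw [← SimpleGraph.coe_edgeFinset, Set.ncard_coe_finset]

/-- `n / 2` is achievable. -/
theorem achievable_complete (n : ℕ) : Achievable ((n : ℝ) / 2) := by
  refine achievable_of_bound (V := Fin (n + 1)) ⊤ ?_ ?_
  · rw [ne_top, Nat.card_fin, Nat.cast_choose_two]
    push_cast
    ring
  · intro X _ _ Q hQ
    have h1 := card_le_of_isMinor hQ
    rw [Nat.card_fin] at h1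
    have h2 := ne_le_real Q
    have h3 : (Nat.card X : ℝ) ≤ n + 1 := by exact_mod_cast h1
    have h4 : (0 : ℝ) < Nat.card X := by exact_mod_cast Nat.card_pos
    nlinarith

/-- **Theorem 1.** -/
theorem achievable_of_one {V : Type} [Finite V] {P : SimpleGraph V} {β : ℝ}
    (hV : 2 ≤ Nat.card V) (he : (ne P : ℝ) = β * (Nat.card V - 1))
    (hP : ∀ (X : Type) [Finite X] [Nonempty X] (Q : SimpleGraph X), IsMinor Q P →
      (ne Q : ℝ) ≤ β * (Nat.card X - 1)) : Achievable β := by
  classical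
  haveI := Fintype.ofFinite V
  have hV' : (2 : ℝ) ≤ Nat.card V := by exact_mod_cast hV
  have hβ : 0 ≤ β := by
    by_contra hneg
    have h1 : (0 : ℝ) ≤ ne P := Nat.cast_nonneg _
    nlinarith
  by_cases hcomp : ∀ z x : V, z ≠ x → P.Adj z x
  · have hPt : P = ⊤ := by
      ext z x
      exact ⟨fun h => h.ne, fun h => hcomp z x h⟩
    have hβ' : β = (Nat.card V : ℝ) / 2 := by
      rw [hPt, ne_top, Nat.cast_choose_two] at he
      have h2 : (Nat.card V : ℝ) - 1 ≠ 0 := by linarith
      field_simp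
      apply mul_right_cancel₀ h2
      linarith
    rw [hβ']
    exact achievable_complete _
  · push Not at hcomp
    obtain ⟨z, x, hzx, hadj⟩ := hcomp
    let ι₁ : V → V ⊕ {v : V // v ≠ z ∧ v ≠ x} := Sum.inl
    let ι₂ : V → V ⊕ {v : V // v ≠ z ∧ v ≠ x} := fun v =>
      if h : v ≠ z ∧ v ≠ x then Sum.inr ⟨v, h⟩ else Sum.inl v
    have h₁ : Function.Injective ι₁ := Sum.inl_injective
    have h₂ : Function.Injective ι₂ := by
      intro u v huv
      simp only [ι₂] at huv
      split_ifs at huv with hu hv hv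
      · have := Sum.inr_injective huv
        exact congrArg Subtype.val this
      · exact Sum.inl_injective huv
    have hcommon : ∀ u u', ι₁ u = ι₂ u' → u = u' ∧ (u = z ∨ u = x) := by
      intro u u' h
      simp only [ι₁, ι₂] at h
      split_ifs at h with h'
      have h2 := Sum.inl_injective h
      refine ⟨h2, ?_⟩
      rw [h2]
      by_contra hc
      push Not at hc
      exact h' hc
    have hd : ∀ u v u' v', P.Adj u v → P.Adj u' v' → ι₁ u = ι₂ u' → ι₁ v = ι₂ v' → False := by
      intro u v u' v' huv _ h h'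
      obtain ⟨-, h3⟩ := hcommon u u' h
      obtain ⟨-, h4⟩ := hcommon v v' h'
      rcases h3 with rfl | rfl <;> rcases h4 with rfl | rfl
      · exact huv.ne rfl
      · exact hadj huv
      · exact hadj huv.symm
      · exact huv.ne rfl
    have hS : (Set.range ι₁ ∩ Set.range ι₂).ncard ≤ 2 := by
      have hsub : Set.range ι₁ ∩ Set.range ι₂ ⊆ {Sum.inl z, Sum.inl x} := by
        rintro _ ⟨⟨u, rfl⟩, ⟨v, hv⟩⟩
        obtain ⟨-, h3⟩ := hcommon u v hv.symm
        rcases h3 with rfl | rfl
        · exact Or.inl rfl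
        · exact Or.inr rfl
      exact (Set.ncard_le_ncard hsub (Set.toFinite _)).trans (Set.ncard_insert_le _ _ |>.trans
        (by rw [Set.ncard_singleton]))
    have hs : ∀ u, (∃ v, ι₁ v = u) ∨ ∃ v, ι₂ v = u := by
      rintro (u | u)
      · exact Or.inl ⟨u, rfl⟩
      · refine Or.inr ⟨u.1, ?_⟩
        simp only [ι₂]
        rw [dif_pos u.2]
    haveI : Nonempty (V ⊕ {v : V // v ≠ z ∧ v ≠ x}) := ⟨Sum.inl z⟩
    have hcard : Nat.card (V ⊕ {v : V // v ≠ z ∧ v ≠ x}) + 2 = 2 * Nat.card V := by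
      rw [Nat.card_sum]
      have h3 : Nat.card {v : V // v ≠ z ∧ v ≠ x} + 2 = Nat.card V := by
        rw [Nat.card_eq_fintype_card, Nat.card_eq_fintype_card, Fintype.card_subtype]
        have h4 : (Finset.univ.filter fun v : V => v ≠ z ∧ v ≠ x) =
            (Finset.univ.erase z).erase x := by
          ext v
          simp [and_comm]
        rw [h4, Finset.card_erase_of_mem (by simp [hzx.symm]), Finset.card_erase_of_mem (by simp),
          Finset.card_univ]
        rw [Nat.card_eq_fintype_card] at hV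
        omega
      omega
    refine achievable_of_bound (glue P P ι₁ ι₂ h₁ h₂) ?_ ?_
    · rw [ne_glue P P ι₁ ι₂ h₁ h₂ hd]
      have h5 : (Nat.card (V ⊕ {v : V // v ≠ z ∧ v ≠ x}) : ℝ) + 2 = 2 * Nat.card V := by
        exact_mod_cast hcard
      push_cast
      rw [he]
      linear_combination (-β) * h5
    · intro X _ _ Q hQ
      exact bound hβ h₁ h₂ (isUnion_glue P P ι₁ ι₂ h₁ h₂ hs) hS hP hP hQ

end Pool.Agent.L5helper75.EB
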