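import Pool.Agent.L5helper75.EB.Cone

/-!
# Superadditivity of the excess under gluing at a vertex
-/

set_option autoImplicit false

open SimpleGraph

namespace Pool.Agent.L5helper75.EB

/-- `B` is a family of branch sets for `M` in `G`. -/
structure Model {W V : Type} (M : SimpleGraph W) (G : SimpleGraph V) (B : W → Set V) : Prop where
  conn : ∀ w, (G.induce (B w)).Connected
  disj : ∀ w w', w ≠ w' → Disjoint (B w) (B w')
  adj : ∀ w w', M.Adj w w' → ∃ x ∈ B w, ∃ y ∈ B w', G.Adj x y

theorem connected_singleton {V : Type} (G : SimpleGraph V) (v : V) :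
    (G.induce ({v} : Set V)).Connected := by
  have : Nonempty ({v} : Set V) := ⟨⟨v, rfl⟩⟩
  refine ⟨fun a b => ?_⟩
  rw [Subsingleton.elim a b]

theorem isMinor_induce {V : Type} (G : SimpleGraph V) (X : Set V) : IsMinor (G.induce X) G := by
  refine ⟨fun x => {x.1}, fun x => connected_singleton G x.1, fun x y h => ?_, fun x y h => ?_⟩
  · rw [Set.disjoint_singleton]
    exact fun h' => h (Subtype.ext h')
  · exact ⟨x.1, rfl, y.1, rfl, h⟩

theorem isMinor_self {V : Type} (G : SimpleGraph V) : IsMinor G G := by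
  refine ⟨fun x => {x}, fun x => connected_singleton G x, fun x y h => ?_, fun x y h => ?_⟩
  · rw [Set.disjoint_singleton]
    exact h
  · exact ⟨x, rfl, y, rfl, h⟩

theorem isMinor_one {V : Type} (G : SimpleGraph V) (v : V) :
    IsMinor (⊥ : SimpleGraph Unit) G := by
  refine ⟨fun _ => {v}, fun _ => connected_singleton G v, fun x y h => ?_, fun x y h => ?_⟩
  · exact absurd (Subsingleton.elim x y) h
  · exact h.elim

theorem connected_image {V : Type} {G : SimpleGraph V} {X : Set V} {B : Set X}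
    (h : ((G.induce X).induce B).Connected) : (G.induce (Subtype.val '' B)).Connected := by
  let f : (G.induce X).induce B →g G.induce (Subtype.val '' B) :=
    ⟨fun v => ⟨v.1.1, v.1, v.2, rfl⟩, fun {u v} h => h⟩
  have hf : Function.Surjective f := by
    rintro ⟨_, x, hx, rfl⟩
    exact ⟨⟨x, hx⟩, rfl⟩
  exact h.map f hf

/-- The branch sets of a minor of a connected graph can be enlarged to contain a given vertex. -/
theorem cover_walk {W V : Type} {M : SimpleGraph W} {G : SimpleGraph V} {x y : V}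
    (p : G.Walk x y) : ∀ B : W → Set V, Model M G B → (∃ b, x ∈ B b) →
      ∃ B' : W → Set V, Model M G B' ∧ ∃ b, y ∈ B' b := by
  classical
  induction p with
  | nil => intro B hB hb; exact ⟨B, hB, hb⟩
  | @cons x z y h p ih =>
    intro B hB hb
    obtain ⟨b, hb⟩ := hb
    by_cases hz : ∃ b', z ∈ B b'
    · exact ih B hB hz
    · push Not at hz
      have hsub : ∀ w, B w ⊆ Function.update B b (insert z (B b)) w := by
        intro w
        by_cases hw : w = b
        · subst hw
          rw [Function.update_self]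
          exact Set.subset_insert _ _
        · rw [Function.update_of_ne hw]
      refine ih (Function.update B b (insert z (B b))) ⟨?_, ?_, ?_⟩ ⟨b, by
        rw [Function.update_self]; exact Set.mem_insert _ _⟩
      · intro w
        by_cases hw : w = b
        · subst hw
          rw [Function.update_self]
          have e : insert z (B w) = B w ∪ {x, z} := by
            ext t
            simp only [Set.mem_insert_iff, Set.mem_union, Set.mem_singleton_iff]
            constructor
            · rintro (h | h)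
              · exact Or.inr (Or.inr h)
              · exact Or.inl h
            · rintro (h | h | h)
              · exact Or.inr h
              · exact Or.inr (h ▸ hb)
              · exact Or.inl h
          rw [e]
          exact induce_union_connected (hB.conn w).preconnected
            (induce_pair_connected_of_adj h).preconnected ⟨x, hb, by simp⟩
        · rw [Function.update_of_ne hw]
          exact hB.conn w
      · have key : ∀ w, w ≠ b → Disjoint (insert z (B b)) (B w) := by
          intro w hw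
          rw [Set.disjoint_left]
          rintro t (rfl | ht) ht'
          · exact hz w ht'
          · exact Set.disjoint_left.1 (hB.disj b w (Ne.symm hw)) ht ht'
        intro w w' hww
        by_cases hw : w = b
        · subst hw
          rw [Function.update_self, Function.update_of_ne (Ne.symm hww)]
          exact key w' (Ne.symm hww)
        · rw [Function.update_of_ne hw]
          by_cases hw' : w' = b
          · subst hw'
            rw [Function.update_self]
            exact (key w hw).symm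
          · rw [Function.update_of_ne hw']
            exact hB.disj w w' hww
      · intro w w' hww
        obtain ⟨s, hs, t, ht, hst⟩ := hB.adj w w' hww
        exact ⟨s, hsub w hs, t, hsub w' ht, hst⟩

theorem cover {W V : Type} [Nonempty W] {M : SimpleGraph W} {G : SimpleGraph V}
    (hG : G.Connected) (h : IsMinor M G) (u : V) :
    ∃ B : W → Set V, Model M G B ∧ ∃ b, u ∈ B b := by
  obtain ⟨B, hB, hd, hadj⟩ := h
  obtain ⟨w⟩ := ‹Nonempty W›
  obtain ⟨x⟩ := (hB w).nonempty
  obtain ⟨p⟩ := hG.preconnected x.1 u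
  exact cover_walk p B ⟨hB, hd, hadj⟩ ⟨w, x.2⟩

/-- Some minor `M` has `e(M) - β (v(M) - 1) ≥ r`. -/
def Val (β : ℝ) {V : Type} (G : SimpleGraph V) (r : ℝ) : Prop :=
  ∃ (W : Type) (_ : Finite W) (_ : Nonempty W) (M : SimpleGraph W), IsMinor M G ∧
    r ≤ ne M - β * (Nat.card W - 1)

theorem val_add {V : Type} {G : SimpleGraph V} {β r r' : ℝ} {X Y : Set V} {u : V}
    (hu : X ∩ Y = {u}) (hX : (G.induce X).Connected)
    (hY : (G.induce Y).Connected) (h : Val β (G.induce X) r) (h' : Val β (G.induce Y) r') :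
    Val β G (r + r') := by
  classical
  have huX : u ∈ X := (hu.symm ▸ rfl : u ∈ X ∩ Y).1
  have huY : u ∈ Y := (hu.symm ▸ rfl : u ∈ X ∩ Y).2
  have huniq : ∀ t, t ∈ X → t ∈ Y → t = u := fun t h1 h2 => by
    have : t ∈ X ∩ Y := ⟨h1, h2⟩
    rw [hu] at this
    exact this
  obtain ⟨W₁, _, _, M₁, hM₁, hr⟩ := h
  obtain ⟨W₂, _, _, M₂, hM₂, hr'⟩ := h'
  obtain ⟨B₁, hB₁, b₁, hb₁⟩ := cover hX hM₁ ⟨u, huX⟩
  obtain ⟨B₂, hB₂, b₂, hb₂⟩ := cover hY hM₂ ⟨u, huY⟩
  let κ₁ : W₁ → W₁ ⊕ {w : W₂ // w ≠ b₂} := Sum.inl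
  let κ₂ : W₂ → W₁ ⊕ {w : W₂ // w ≠ b₂} := fun w => if h : w ≠ b₂ then Sum.inr ⟨w, h⟩ else Sum.inl b₁
  have h₁ : Function.Injective κ₁ := Sum.inl_injective
  have h₂ : Function.Injective κ₂ := by
    intro s t hst
    simp only [κ₂] at hst
    split_ifs at hst with hs ht ht
    · exact congrArg Subtype.val (Sum.inr_injective hst)
    · push Not at hs ht
      rw [hs, ht]
  have hcommon : ∀ s t, κ₁ s = κ₂ t → s = b₁ ∧ t = b₂ := by
    intro s t hst
    simp only [κ₁, κ₂] at hst
    split_ifs at hst with ht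
    push Not at ht
    exact ⟨Sum.inl_injective hst, ht⟩
  have hd : ∀ s t s' t', M₁.Adj s t → M₂.Adj s' t' → κ₁ s = κ₂ s' → κ₁ t = κ₂ t' → False := by
    intro s t s' t' hst _ hs ht
    exact hst.ne ((hcommon s s' hs).1.trans (hcommon t t' ht).1.symm)
  let C : W₁ ⊕ {w : W₂ // w ≠ b₂} → Set V := Sum.elim
    (fun w => Subtype.val '' B₁ w ∪ if w = b₁ then Subtype.val '' B₂ b₂ else ∅)
    (fun w => Subtype.val '' B₂ w.1)
  have hC₁ : ∀ w, Subtype.val '' B₁ w ⊆ C (κ₁ w) := fun w => Set.subset_union_left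
  have hC₂ : ∀ w, Subtype.val '' B₂ w ⊆ C (κ₂ w) := by
    intro w
    by_cases hw : w = b₂
    · subst hw
      simp only [κ₂, ne_eq, not_true_eq_false, dite_false, C, Sum.elim_inl, if_true]
      exact Set.subset_union_right
    · simp only [κ₂, ne_eq, hw, not_false_eq_true, dite_true, C, Sum.elim_inr]
      exact subset_rfl
  have hcross : ∀ w w', ∀ t, t ∈ Subtype.val '' B₁ w → t ∈ Subtype.val '' B₂ w' → w = b₁ ∧ w' = b₂ := by
    rintro w w' t ⟨x, hx, rfl⟩ ⟨y, hy, hxy⟩
    have hxu : x.1 = u := huniq _ x.2 (hxy ▸ y.2)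
    constructor
    · by_contra hne
      have : x = ⟨u, huX⟩ := Subtype.ext hxu
      subst this
      exact Set.disjoint_left.1 (hB₁.disj w b₁ hne) hx hb₁
    · by_contra hne
      have : y = ⟨u, huY⟩ := Subtype.ext (hxy.trans hxu)
      subst this
      exact Set.disjoint_left.1 (hB₂.disj w' b₂ hne) hy hb₂
  have hin₁ : ∀ w w' t, t ∈ Subtype.val '' B₁ w → t ∈ Subtype.val '' B₁ w' → w = w' := by
    rintro w w' t ⟨x, hx, rfl⟩ ⟨y, hy, hxy⟩
    by_contra hne
    have : y = x := Subtype.ext hxy
    subst this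
    exact Set.disjoint_left.1 (hB₁.disj w w' hne) hx hy
  have hin₂ : ∀ w w' t, t ∈ Subtype.val '' B₂ w → t ∈ Subtype.val '' B₂ w' → w = w' := by
    rintro w w' t ⟨x, hx, rfl⟩ ⟨y, hy, hxy⟩
    by_contra hne
    have : y = x := Subtype.ext hxy
    subst this
    exact Set.disjoint_left.1 (hB₂.disj w w' hne) hx hy
  have hinl : ∀ w t, t ∈ C (Sum.inl w) →
      t ∈ Subtype.val '' B₁ w ∨ (w = b₁ ∧ t ∈ Subtype.val '' B₂ b₂) := by
    intro w t ht
    rcases ht with ht | ht
    · exact Or.inl ht
    · split_ifs at ht with hw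
      · exact Or.inr ⟨hw, ht⟩
      · exact ht.elim
  have hM : IsMinor (glue M₁ M₂ κ₁ κ₂ h₁ h₂) G := by
    refine ⟨C, ?_, ?_, ?_⟩
    · rintro (w | w)
      · by_cases hw : w = b₁
        · subst hw
          have e : C (Sum.inl w) = Subtype.val '' B₁ w ∪ Subtype.val '' B₂ b₂ := by
            simp only [C, Sum.elim_inl, if_true]
          rw [e]
          exact induce_union_connected (connected_image (hB₁.conn w)).preconnected
            (connected_image (hB₂.conn b₂)).preconnected
            ⟨u, ⟨⟨u, huX⟩, hb₁, rfl⟩, ⟨⟨u, huY⟩, hb₂, rfl⟩⟩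
        · have e : C (Sum.inl w) = Subtype.val '' B₁ w := by
            simp only [C, Sum.elim_inl, if_neg hw, Set.union_empty]
          rw [e]
          exact connected_image (hB₁.conn w)
      · exact connected_image (hB₂.conn w.1)
    · rintro (w | w) (w' | w') hww <;> rw [Set.disjoint_left] <;> intro t ht ht'
      · have hne : w ≠ w' := fun h => hww (by rw [h])
        rcases hinl w t ht with h1 | ⟨h1, h1'⟩ <;> rcases hinl w' t ht' with h2 | ⟨h2, h2'⟩
        · exact hne (hin₁ w w' t h1 h2)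
        · exact hne ((hcross w b₂ t h1 h2').1.trans h2.symm)
        · exact hne (h1.trans (hcross w' b₂ t h2 h1').1.symm)
        · exact hne (h1.trans h2.symm)
      · rcases hinl w t ht with h1 | ⟨h1, h1'⟩
        · exact w'.2 (hcross w w'.1 t h1 ht').2
        · exact w'.2 (hin₂ w'.1 b₂ t ht' h1')
      · rcases hinl w' t ht' with h1 | ⟨h1, h1'⟩
        · exact w.2 (hcross w' w.1 t h1 ht).2
        · exact w.2 (hin₂ w.1 b₂ t ht h1')
      · exact hww (congrArg Sum.inr (Subtype.ext (hin₂ w.1 w'.1 t ht ht')))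
    · rintro a b (⟨s, t, rfl, rfl, hst⟩ | ⟨s, t, rfl, rfl, hst⟩)
      · obtain ⟨x, hx, y, hy, hxy⟩ := hB₁.adj s t hst
        exact ⟨x.1, hC₁ s ⟨x, hx, rfl⟩, y.1, hC₁ t ⟨y, hy, rfl⟩, hxy⟩
      · obtain ⟨x, hx, y, hy, hxy⟩ := hB₂.adj s t hst
        exact ⟨x.1, hC₂ s ⟨x, hx, rfl⟩, y.1, hC₂ t ⟨y, hy, rfl⟩, hxy⟩
  refine ⟨W₁ ⊕ {w : W₂ // w ≠ b₂}, inferInstance, ⟨Sum.inl b₁⟩, _, hM, ?_⟩
  have hc := card_del b₂
  have hc' : (Nat.card {w : W₂ // w ≠ b₂} : ℝ) + 1 = Nat.card W₂ := by exact_mod_cast hc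
  rw [ne_glue M₁ M₂ κ₁ κ₂ h₁ h₂ hd, Nat.card_sum]
  push_cast
  have : ((Nat.card W₁ : ℝ) + Nat.card {w : W₂ // w ≠ b₂} - 1) =
      (Nat.card W₁ - 1) + (Nat.card W₂ - 1) := by linarith
  rw [this, mul_add]
  linarith

end Pool.Agent.L5helper75.EB
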